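import Pool.Agent.W221.NS.Stm

/-! MD-MOLL -/

open MeasureTheory Set Metric
open scoped ContDiff

namespace W496.MD

open H459R3.NS W221.NS

theorem th_smooth : ContDiff ℝ ∞ th := by
  have := (bmp : ContDiffBump (0 : V)).contDiff_normed (μ := (volume : Measure V)) (n := ⊤)
  exact this

theorem th_zero {y : V} (hy : y ∉ closedBall (0 : V) 1) : th y = 0 := by
  have h := (bmp : ContDiffBump (0 : V)).support_normed_eq (μ := (volume : Measure V))
  by_contra hne
  have : y ∈ Function.support (bmp.normed (volume : Measure V)) := hne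
  rw [h] at this
  exact hy (ball_subset_closedBall this)

theorem th_int : Integrable th := (bmp : ContDiffBump (0 : V)).integrable_normed

theorem slice_smooth {T : ℝ} {u : ℝ → V → V} {p : ℝ → V → ℝ} (h : IsSol 1 T u p) {t : ℝ}
    (ht : t ∈ Ico 0 T) : ContDiff ℝ ∞ (u t) := by
  have h1 : ContDiffOn ℝ ∞ (fun x : V => (t, x)) univ := (contDiff_prodMk_right t).contDiffOn
  have h2 := h.smooth_u.comp h1 (fun x _ => ⟨ht, mem_univ x⟩)
  exact contDiffOn_univ.1 h2

theorem MOLL_smooth {T : ℝ} {u : ℝ → V → V} {p : ℝ → V → ℝ} (h : IsSol 1 T u p) (r : ℝ)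
    (i : Fin 3) :
    ContDiffOn ℝ ∞ (fun z : ℝ × V => ∫ y, th y * u z.1 (z.2 + r • y) i) (Ioo 0 T ×ˢ univ) := by
  let g : (ℝ × V) → V → ℝ := fun z y => th y * u z.1 (z.2 + r • y) i
  have hs : IsOpen (Ioo 0 T ×ˢ (univ : Set V)) := isOpen_Ioo.prod isOpen_univ
  have hg : ContDiffOn ℝ ∞ (↿g) ((Ioo 0 T ×ˢ (univ : Set V)) ×ˢ (univ : Set V)) := by
    have h1 : ContDiffOn ℝ ∞ (fun q : (ℝ × V) × V => th q.2)
        ((Ioo 0 T ×ˢ (univ : Set V)) ×ˢ (univ : Set V)) :=
      (th_smooth.comp contDiff_snd).contDiffOn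
    have h2 : ContDiff ℝ ∞ (fun q : (ℝ × V) × V => ((q.1.1, q.1.2 + r • q.2) : ℝ × V)) := by
      fun_prop
    have h3 := h.smooth_u.comp h2.contDiffOn (s := (Ioo 0 T ×ˢ (univ : Set V)) ×ˢ (univ : Set V))
      (fun q hq => ⟨⟨hq.1.1.1.le, hq.1.1.2⟩, mem_univ _⟩)
    have h4 : ContDiffOn ℝ ∞ (fun q : (ℝ × V) × V => u q.1.1 (q.1.2 + r • q.2) i)
        ((Ioo 0 T ×ˢ (univ : Set V)) ×ˢ (univ : Set V)) := contDiffOn_pi.1 h3 i
    exact h1.mul h4
  have key := contDiffOn_convolution_right_with_param_comp (𝕜 := ℝ) (n := ⊤)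
    (ContinuousLinearMap.mul ℝ ℝ) (s := Ioo 0 T ×ˢ (univ : Set V))
    (v := fun _ : ℝ × V => (0 : V)) contDiffOn_const (f := fun _ : V => (1 : ℝ)) (g := g)
    (k := closedBall (0 : V) 1) hs (isCompact_closedBall 0 1)
    (fun z y _ hy => by simp [g, th_zero hy]) (μ := (volume : Measure V))
    (locallyIntegrable_const 1) hg
  refine key.congr ?_
  intro z _
  simp only [convolution_def, ContinuousLinearMap.mul_apply', one_mul, zero_sub]
  exact (integral_neg_eq_self (fun y => g z y) volume).symm

theorem hasFDerivAt_moll {w : V → ℝ} (hw : ContDiff ℝ ∞ w) (r : ℝ) (x₀ : V) :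
    HasFDerivAt (fun x => ∫ y, th y * w (x + r • y))
      (∫ y, th y • fderiv ℝ w (x₀ + r • y)) x₀ := by
  have hfd : Continuous (fderiv ℝ w) := hw.continuous_fderiv (by simp)
  have hcomp : IsCompact (closedBall x₀ 1 ×ˢ closedBall (0 : V) 1) :=
    (isCompact_closedBall x₀ 1).prod (isCompact_closedBall 0 1)
  obtain ⟨C, hC⟩ := hcomp.exists_bound_of_continuousOn
    (f := fun q : V × V => fderiv ℝ w (q.1 + r • q.2)) (by fun_prop)
  have hth0 : ∀ y, 0 ≤ th y := fun y => (bmp : ContDiffBump (0 : V)).nonneg_normed y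
  have hthc : Continuous th := th_smooth.continuous
  refine hasFDerivAt_integral_of_dominated_of_fderiv_le (F' := fun x y => th y • fderiv ℝ w (x + r • y))
    (bound := fun y => th y * C) (s := closedBall x₀ 1) (closedBall_mem_nhds x₀ one_pos) ?_ ?_ ?_ ?_ ?_ ?_
  · filter_upwards with x
    have : Continuous (fun y => th y * w (x + r • y)) :=
      hthc.mul (hw.continuous.comp (by fun_prop))
    exact this.aestronglyMeasurable
  · have : Continuous (fun y => th y * w (x₀ + r • y)) :=
      hthc.mul (hw.continuous.comp (by fun_prop))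
    refine this.integrable_of_hasCompactSupport ?_
    refine HasCompactSupport.intro (isCompact_closedBall (0 : V) 1) ?_
    intro y hy
    simp [th_zero hy]
  · have : Continuous (fun y => th y • fderiv ℝ w (x₀ + r • y)) :=
      hthc.smul (hfd.comp (by fun_prop))
    exact this.aestronglyMeasurable
  · filter_upwards with y x hx
    by_cases hy : y ∈ closedBall (0 : V) 1
    · rw [norm_smul, Real.norm_of_nonneg (hth0 y)]
      exact mul_le_mul_of_nonneg_left (hC (x, y) ⟨hx, hy⟩) (hth0 y)
    · simp [th_zero hy]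
  · exact th_int.mul_const C
  · filter_upwards with y x _
    have h1 : HasFDerivAt w (fderiv ℝ w (x + r • y)) (x + r • y) :=
      (hw.differentiable (by simp) _).hasFDerivAt
    have h2 : HasFDerivAt (fun x : V => x + r • y) (ContinuousLinearMap.id ℝ V) x :=
      (hasFDerivAt_id x).add_const _
    have h3 := (h1.comp x h2).const_mul (th y)
    simpa using h3

theorem pd_moll {w : V → ℝ} (hw : ContDiff ℝ ∞ w) (r : ℝ) (x₀ : V) (j : Fin 3) :
    pd j (fun x => ∫ y, th y * w (x + r • y)) x₀ = ∫ y, th y * pd j w (x₀ + r • y) := by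
  have h := hasFDerivAt_moll hw r x₀
  unfold pd
  rw [h.fderiv]
  have hfd : Continuous (fderiv ℝ w) := hw.continuous_fderiv (by simp)
  have hthc : Continuous th := th_smooth.continuous
  have hint : Integrable (fun y => th y • fderiv ℝ w (x₀ + r • y)) := by
    have : Continuous (fun y => th y • fderiv ℝ w (x₀ + r • y)) :=
      hthc.smul (hfd.comp (by fun_prop))
    refine this.integrable_of_hasCompactSupport ?_
    refine HasCompactSupport.intro (isCompact_closedBall (0 : V) 1) ?_
    intro y hy
    simp [th_zero hy]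
  rw [ContinuousLinearMap.integral_apply hint]
  simp

theorem t_MOLL : S_MOLL := by
  intro T u p h r hr
  refine ⟨?_, ?_, ?_⟩
  · refine contDiffOn_pi.2 (fun i => ?_)
    exact MOLL_smooth h r i
  · intro t ht i x
    have hper := h.per_u t ⟨ht.1.le, ht.2⟩
    funext j
    simp only [mol]
    congr 1
    funext y
    have : x + Pi.single i 1 + r • y = (x + r • y) + Pi.single i 1 := by abel
    rw [this, hper i (x + r • y)]
  · intro t ht x
    have ht' : t ∈ Ico 0 T := ⟨ht.1.le, ht.2⟩
    have hsm := slice_smooth h ht'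
    have hw : ∀ i, ContDiff ℝ ∞ (fun y => u t y i) := fun i => contDiff_pi.1 hsm i
    have h1 : ∀ i, pd i (fun y => mol r u t y i) x
        = ∫ y, th y * pd i (fun z => u t z i) (x + r • y) := fun i => pd_moll (hw i) r x i
    simp only [h1]
    rw [← integral_finsetSum]
    · have h0 : (fun y => ∑ i, th y * pd i (fun z => u t z i) (x + r • y)) = fun _ => 0 := by
        funext y
        rw [← Finset.mul_sum, h.divfree t ht' (x + r • y), mul_zero]
      rw [h0, integral_zero]
    · intro i _
      have hfd : Continuous (fderiv ℝ (fun z => u t z i)) := (hw i).continuous_fderiv (by simp)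
      have hthc : Continuous th := th_smooth.continuous
      have : Continuous (fun y => th y * pd i (fun z => u t z i) (x + r • y)) := by
        unfold pd
        exact hthc.mul ((hfd.comp (by fun_prop)).clm_apply continuous_const)
      refine this.integrable_of_hasCompactSupport ?_
      refine HasCompactSupport.intro (isCompact_closedBall (0 : V) 1) ?_
      intro y hy
      simp [th_zero hy]

end W496.MD
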